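import Mathlib

set_option autoImplicit false

/-!
# Digit changes of quadratic irrationals: statements (project DC of helper188)

Goal (page MP_0308e6_nt): for every real quadratic irrational number `x` (for instance the square
root of two), every base `b ≥ 2` and every `η > 0` the number of digit changes `a_k ≠ a_(k+1)`,
`1 ≤ k ≤ N`, in the base `b` expansion of `x` is at least `(log N) ^ (5/2 - η)` for all large `N`.
Known: exponent `3/2` (Bugeaud and Evertse).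

Every `def S_... : Prop` below is a piece; the docstring contains its complete proof.
-/

namespace Pool.Agent.Run7.h188.DC

open Finset Filter

/-! ## Notation for one prime -/

/-- partial sums -/
def F {p : ℕ} (δ : ℕ → ZMod p) (k : ℕ) : ZMod p := ∑ j ∈ range (k + 1), δ j

/-- `G δ R` is the sum of `δ a * δ a'` over all `a + a' ≤ R` -/
def G {p : ℕ} (δ : ℕ → ZMod p) (R : ℕ) : ZMod p := ∑ j ∈ range (R + 1), δ j * F δ (R - j)

/-- good places: the relation `F(⌊k/p⌋) = -F(k)` holds -/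
def Good {p : ℕ} (δ : ℕ → ZMod p) (k : ℕ) : Prop := F δ (k / p) = - F δ k

open Classical in
/-- the value of `F` at the last good place `≤ k` (at `0` if there is none) -/
noncomputable def Fh {p : ℕ} (δ : ℕ → ZMod p) : ℕ → ZMod p
  | 0 => F δ 0
  | k + 1 => if Good δ (k + 1) then F δ (k + 1) else Fh δ k

/-- places where `Fh` jumps (for `k = 0` this is false, as `0 - 1 = 0`); all of them are good -/
def Jump {p : ℕ} (δ : ℕ → ZMod p) (k : ℕ) : Prop := Fh δ k ≠ Fh δ (k - 1)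

open Classical in
/-- The data for one odd prime `p`: at most `K` non-zero `δ j`, `j < n`; `F(⌊k/p⌋) = -F(k)` and
`G(k) = Δ ≠ 0` for all but at most `E` of the `k < n`. -/
structure Dat (p : ℕ) (δ : ℕ → ZMod p) (Δ : ZMod p) (n K E : ℕ) : Prop where
  hp : p.Prime
  h2 : 2 < p
  hΔ : Δ ≠ 0
  hK : ((range n).filter (fun j => δ j ≠ 0)).card ≤ K
  hB : ((range n).filter (fun k => ¬ Good δ k)).card ≤ E
  hG : ((range n).filter (fun k => G δ k ≠ Δ)).card ≤ E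

open Classical in
/-- **L2** (no value is taken almost everywhere on a window). Proof. Suppose that the set
`U = {x in [z, ρ z) : F x ≠ φ}` has at most `z` elements.
Case `φ ≠ 0`. Consider `k` in `[p z, ρ z)`; exclude the `k` with `F k ≠ φ` (at most `z`), the
`k` which are not good (at most `E ≤ z`), and the `k` with `F (k / p) ≠ φ` (then `k / p` is one of
the at most `z` elements of `U`, so at most `p z` such `k`). As `(p + 2) z < (ρ - p) z`, some `k`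
remains, and `φ = F (k / p) = - F k = - φ`, so `2 φ = 0`, `φ = 0` as `p` is an odd prime.
Case `φ = 0`. Consider `R` in `[2 z, ρ z)`; exclude the `R` with `G R ≠ Δ` (at most `E ≤ z`), the
`R` such that `R - z < a ≤ R` for some `a` with `δ a ≠ 0` (at most `K z`; note `a < n`), and the `R`
such that `R - a ∈ U` for some `a` with `δ a ≠ 0` (at most `K z`). As `(2 K + 1) z < (ρ - 2) z`,
some `R` remains; `Δ = G R` is the sum of `δ a F(R - a)` over the `a` with `δ a ≠ 0`, `a ≤ R - z`, so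
`z ≤ R - a < ρ z` and `F (R - a) = 0`. So `Δ = 0`, a contradiction. -/
def S_L2 : Prop := ∀ (p : ℕ) (δ : ℕ → ZMod p) (Δ : ZMod p) (n K E : ℕ), Dat p δ Δ n K E →
  ∀ (z ρ : ℕ) (φ : ZMod p), 1 ≤ z → E ≤ z → 2 * K + 2 * p + 4 ≤ ρ → ρ * z ≤ n →
    z < ((Ico z (ρ * z)).filter (fun x => F δ x ≠ φ)).card

/-- **L1** (a change of `F` between good places gives a `p`-edge). Proof. Suppose there are no such
`a, a'`. Show `F v = F u` by strong induction on `v` (for all good `v ≥ u`, `v < n`, such that no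
such `a, a'` exist for `u, v`): let `g` be the largest good place with `u ≤ g < v`. All places in
`(g, v)` are bad, so `v - g - 1 ≤ E`. If there are `a'` and `a` with `δ a' ≠ 0`, `δ a ≠ 0` and `a'`,
`p a` both in `(g, v]`, then they differ by at most `v - g - 1 ≤ E`: excluded. If there is no `a'`
with `δ a' ≠ 0` in `(g, v]`, then `F v = F g`. If there is no `a` with `δ a ≠ 0`, `g < p a ≤ v`,
then `F (v / p) = F (g / p)` (`g / p < a ≤ v / p` iff `g < p a ≤ v`), so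
`F v = - F (v / p) = - F (g / p) = F g`. And `F g = F u` by induction. -/
def S_L1 : Prop := ∀ (p : ℕ) (δ : ℕ → ZMod p) (Δ : ZMod p) (n K E : ℕ), Dat p δ Δ n K E →
  ∀ u v : ℕ, u < v → v < n → Good δ u → Good δ v → F δ u ≠ F δ v →
    ∃ a a' : ℕ, δ a ≠ 0 ∧ δ a' ≠ 0 ∧ u < a' ∧ a' ≤ v ∧ u < p * a ∧ p * a ≤ v ∧
      a' ≤ p * a + E ∧ p * a ≤ a' + E

open Classical in
/-- **CONV** (the convolution formula). Here `J s = Fh s - Fh (s - 1)`. Proof. `G R` is the sum of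
`δ a δ a'` over `a + a' ≤ R`. The pairs with `a' ≤ lam` give `I = ∑ (a ≤ lam) δ a F(R - a)`, those with
`a ≤ lam` give `I` too, those with both give `(F lam)^2` (`2 lam ≤ R`). So `G R = 2 I - (F lam)^2 + II`, `II` =
the sum over `a, a' > lam`, `a + a' ≤ R`. In `I`, `F (R - a) = Fh (R - a)` if `δ a ≠ 0` (`Fh x = F x` at good
`x`). `II = ∑ (a > lam, a ≤ R - lam) δ a (F (R - a) - F lam)`, and for `δ a ≠ 0`
`F (R - a) - F lam = Fh (R - a) - Fh lam = ∑ (lam < s ≤ R - a) J s`, so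
`II = ∑ (s > lam, s ≤ R - lam) J s (F (R - s) - F lam)`, where for `J s ≠ 0` again `R - s` is good, so
`II = ∑ (s, s' > lam, s + s' ≤ R) J s J s'`. -/
def S_CONV : Prop := ∀ (p : ℕ) (δ : ℕ → ZMod p) (lam R : ℕ), Good δ lam → 2 * lam ≤ R →
  (∀ a, a ≤ R → δ a ≠ 0 → Good δ (R - a)) →
  (∀ s, lam < s → s ≤ R → Jump δ s → Good δ (R - s)) →
  G δ R = 2 * (∑ a ∈ range (lam + 1), δ a * Fh δ (R - a)) - (F δ lam) ^ 2 +
    ∑ s ∈ Ioc lam R, ∑ s' ∈ Ioc lam R,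
      (if s + s' ≤ R then (Fh δ s - Fh δ (s - 1)) * (Fh δ s' - Fh δ (s' - 1)) else 0)

open Classical in
/-- **CHGb** (the contradiction at a clean scale). Here `Sl = {s in (lam, c + W) : Jump s}`,
`J s = Fh s - Fh (s - 1)`; `Fh x = F x` at good `x`.
Proof. For `x` in `[w, W)` put `R = c + x`. Call `x` excluded if (i) `G R ≠ Δ`, or (ii) there is
`a ≤ R` with `δ a ≠ 0` such that `R - a` is not good, or (iii) there is `a ≤ lam` with
`δ a ≠ 0` such that `R - a ∈ [c - lam, c)` and `Fh (R - a) ≠ φ₀`, or (iv) there is `s ∈ Sl`, `s ≤ R`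
such that `R - s` is not good. There are at most `E + K E + K X + m E` excluded `x` (for each `a` or
`s` the map `x ↦ c + x - a` is injective; all `R < n`). By the last hypothesis (applied
twice: first with any `φ`, to get a non-excluded `x₀`, then with `φ = F x₀`) there are
non-excluded `x₀, x₁` with `F x₀ ≠ F x₁`; let `x₀ < x₁` without loss of generality.
For a non-excluded `x` CONV gives `Δ = G R = 2 I - (F lam)^2 + II`, `R = c + x`. In
`I = ∑ (a ≤ lam) δ a Fh(R - a)`, for `δ a ≠ 0` `Fh (R - a)` is `φ₁` if `a ≤ x` (then `c ≤ R - a < c + W`)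
and `φ₀` if `x < a ≤ lam` (then `c - lam ≤ R - a < c`). So `I = φ₁ F x + φ₀ (F lam - F x)`
(`x < W ≤ lam`). By the hypothesis on sums of two jumps, the pairs of jumps `s, s' > lam` with
`s + s' ≤ c + x₁` are the same as those with `s + s' ≤ c + x₀` (both: `s + s' ≤ c + w`), so `II` has the
same value for `x₀` and `x₁`. Subtract: `0 = 2 (φ₁ - φ₀) (F x₁ - F x₀)` in the field `ZMod p` with `p`
odd: contradiction. -/
def S_CHGb : Prop := S_CONV → ∀ (p : ℕ) (δ : ℕ → ZMod p) (Δ : ZMod p) (n K E : ℕ), Dat p δ Δ n K E →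
  ∀ (m X lam c w W : ℕ) (φ₀ φ₁ : ZMod p), φ₀ ≠ φ₁ → Good δ lam → W ≤ lam → 2 * lam ≤ c →
    c + W ≤ n →
    (∀ x, c ≤ x → x < c + W → Fh δ x = φ₁) →
    ((Ico (c - lam) c).filter (fun x => Fh δ x ≠ φ₀)).card ≤ X →
    ((Ioo lam (c + W)).filter (fun s => Jump δ s)).card ≤ m →
    (∀ s s', lam < s → lam < s' → Jump δ s → Jump δ s' → s + s' < c + W → s + s' ≤ c + w) →
    (∀ φ : ZMod p, (1 + K + m) * E + K * X < ((Ico w W).filter (fun x => F δ x ≠ φ)).card) →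
    False

open Classical in
/-- **CHGa** (choice of a clean scale). Assume L2. Proof. `S0 = {s in [y, ρ^5 y) : Jump s}` has at
most `m` elements. `Fh x = F x` at good `x`, a jump is a good place, and every interval
`[x, x + E]`, `x + E < n`, contains a good place.
(1) `lam` = a good place in `[y, y + E]`; so `y ≤ lam ≤ 2 y`.
(2) The `m + 1` disjoint intervals `[(i+1) ρ² y, (i+2) ρ² y)`, `i ≤ m`, lie in `[ρ² y, ρ³ y)`
(`m + 2 ≤ ρ`); one of them contains no element of `S0`, say `[g₀, g₀ + ρ² y)`. Put `φ₀ = Fh g₀`; so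
`Fh = φ₀` on it.
(3) Put `J = m² + m + 1` and for `j < J` `w'_j = z ρ^(3j)`, `w_j = ρ w'_j`, `W_j = ρ² w'_j`; so
`W_j ≤ w'_(j+1)`, `W_j ≤ w_(j+1)`, `W_j ≤ y`, `E ≤ w'_j`. Let `C_j` be the set of `s` with
`g₀ < s < ρ⁴ y`, `Jump s`, `Fh s ≠ φ₀`, and no jump in `(s, s + w'_j]`. `C_j` is not empty: by L2
(window `[ρ³ y, ρ⁴ y)`, value `φ₀`) more than `ρ³ y` places `x` in this window have `F x ≠ φ₀`, at
most `E` of them are bad, the others have `Fh x ≠ φ₀`, and the last jump `s` in `(g₀, x]` exists and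
has `Fh s = Fh x ≠ φ₀`; if `C_j` is empty there is a jump in `(s, s + w'_j]`, so `x < s + w'_j + 1`; so
these `x` are at most `m (w'_j + 1)`, and `m (w'_j + 1) + E < ρ³ y`. Let `c_j = min C_j`. As
`C_(j+1) ⊆ C_j`, `c_j` is non-decreasing. Also `g₀ + ρ² y ≤ c_j < ρ⁴ y`.
(4) `X1` = set of the `j < J` such that there is a jump in `(c_j, c_j + W_j)`. The first jump after
`c_j` has a distance from `c_j` in `(w'_j, W_j)`; these intervals are disjoint, so `j ↦ c_j` is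
injective on `X1`, with values in `S0`: `|X1| ≤ m`.
(5) `X2` = set of the `j < J` such that there are jumps `s, s' > lam` with
`c_j + w_j < s + s' < c_j + W_j`. Then `s, s' ∈ S0`. Choose one such pair for every `j ∈ X2`; this is
injective: if `j < j'` had the same pair, then `s + s' < c_j + W_j ≤ c_(j') + w_(j') < s + s'`. So
`|X2| ≤ m²`.
(6) So there is `j < J` outside `X1 ∪ X2`. Take `c = c_j`, `w = w_j`, `W = W_j`, `φ₁ = Fh c`,
`X = m w'_j`. Then `Fh = φ₁` on `[c, c + W)`. If `c - lam ≤ x < c` and `Fh x ≠ φ₀`, then (as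
`c - lam ≥ g₀`) the last jump `s ≤ x` satisfies `g₀ < s < c`, `Fh s ≠ φ₀`, so `s ∉ C_j`, so there is a
jump in `(s, s + w'_j]`, which is `> x`: `x < s + w'_j`; so there are at most `m w'_j = X` such `x`. The
jumps in `(lam, c + W)` are in `S0` (`c + W ≤ ρ⁵ y`). The last property is L2 for the window
`[w, W) = [w, ρ w)`: more than `w = ρ w'_j ≥ (1 + K + m + K m) w'_j` elements. -/
def S_CHGa : Prop := S_L2 → ∀ (p : ℕ) (δ : ℕ → ZMod p) (Δ : ZMod p) (n K E : ℕ), Dat p δ Δ n K E →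
  ∀ m ρ z y : ℕ, 1 ≤ z → E ≤ z → 4 * (K + 1) * (m + 1) + 2 * p + 4 ≤ ρ →
    z * ρ ^ (3 * (m ^ 2 + m + 1) + 3) ≤ y → ρ ^ 6 * y ≤ n →
    ((Ico y (ρ ^ 5 * y)).filter (fun s => Jump δ s)).card ≤ m →
    ∃ (X lam c w W : ℕ) (φ₀ φ₁ : ZMod p), φ₀ ≠ φ₁ ∧ Good δ lam ∧ W ≤ lam ∧ 2 * lam ≤ c ∧
      c + W ≤ n ∧
      (∀ x, c ≤ x → x < c + W → Fh δ x = φ₁) ∧
      ((Ico (c - lam) c).filter (fun x => Fh δ x ≠ φ₀)).card ≤ X ∧
      ((Ioo lam (c + W)).filter (fun s => Jump δ s)).card ≤ m ∧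
      (∀ s s', lam < s → lam < s' → Jump δ s → Jump δ s' → s + s' < c + W → s + s' ≤ c + w) ∧
      (∀ φ : ZMod p, (1 + K + m) * E + K * X < ((Ico w W).filter (fun x => F δ x ≠ φ)).card)

/-- **EDG** (many disjoint `p`-edges). Proof. For `i < t` put `y_i = Y ρ^(5i)`; the windows
`[y_i, y_(i+1))` are disjoint and `ρ⁶ y_i ≤ n`. By CHGa and CHGb every window contains at least
`m + 1` jumps `s` (if there were at most `m`, contradiction). For a jump `s ≥ Y` let `u < s` be the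
last good place before `s` (it exists and `s - 1 - E ≤ u`, because `s > E` and there are at most `E`
bad places; use `E ≤ z < Y`); then `F u = Fh (s - 1) ≠ Fh s = F s`. L1 gives `a, a'` with `a'` and
`p a` in `(u, s]`. For different jumps the intervals `(u, s]` are disjoint (a jump is good), so the
`a` are different and the `a'` are different. Let `M` be the set of these pairs `(a, a')`. -/
def S_EDG : Prop := S_L1 → S_L2 → S_CONV → S_CHGa → S_CHGb →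
  ∀ (p : ℕ) (δ : ℕ → ZMod p) (Δ : ZMod p) (n K E : ℕ), Dat p δ Δ n K E →
  ∀ m ρ z Y t : ℕ, 1 ≤ z → E ≤ z → 4 * (K + 1) * (m + 1) + 2 * p + 4 ≤ ρ →
    z * ρ ^ (3 * (m ^ 2 + m + 1) + 3) ≤ Y → ρ ^ (5 * t + 6) * Y ≤ n →
    ∃ M : Finset (ℕ × ℕ), t * (m + 1) ≤ M.card ∧
      (∀ e ∈ M, δ e.1 ≠ 0 ∧ δ e.2 ≠ 0 ∧ e.2 < n ∧ Y ≤ e.2 + E + 1 ∧ Y ≤ p * e.1 + E + 1 ∧
        p * e.1 < n ∧ e.2 ≤ p * e.1 + E ∧ p * e.1 ≤ e.2 + E) ∧
      (∀ e ∈ M, ∀ e' ∈ M, (e.1 = e'.1 ∨ e.2 = e'.2) → e = e')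

/-- **ISO** (edge-isoperimetric inequality for approximate multiplication graphs). Proof.
Call the elements of `M p` edges of colour `p`. Induction on `|V|` (for all systems `M`): if some
`v ∈ V` is an end of at most `2 d` edges (of all colours), remove `v` and these edges. So assume
that every `v ∈ V` is an end of more than `2 d` edges and `V` is not empty; we show `2 ^ d ≤ |V|`, a
contradiction. Each colour gives at most two edges at `v` (one with `v = e.1`, one with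
`v = e.2`), so more than `d` colours occur at `v`.
Claim: for all `j ≤ d`, all sets `Q` of colours with `|Q| + j ≤ d` and all `v ∈ V` there are a set
`A` of rational numbers `q > 0` and a map `w : A → V` with `|A| = 2 ^ j` such that for all `q ∈ A`
the `r`-adic valuation of `q` is `0` for all `r ∈ Q`, `q = s / s'` with positive integers
`s, s' ≤ P ^ j`, and `|w q - q v| ≤ j P ^ j τ`. For `j = 0`: `A = {1}`, `w 1 = v`. Step: as more than
`d ≥ |Q| + 1` colours occur at `v`, choose a colour `p ∉ Q` and an edge from `v` of colour `p`, with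
other end `v'`; so `|v' - p v| ≤ τ` or `|v - p v'| ≤ τ`, that is `|v' - π v| ≤ τ` with `π = p` or
`π = 1 / p`. Apply the claim for `j` and `Q ∪ {p}` to `v` (set `A₀`) and to `v'` (set `A₁`), and take
`A = A₀ ∪ π A₁`; the two sets are disjoint as the `p`-adic valuations are `0` and `± 1`; and
`|w - q π v| ≤ |w - q v'| + q |v' - π v| ≤ j P^j τ + P^j τ ≤ (j + 1) P^(j+1) τ`.
Take `j = d`, `Q = ∅`: if `w q = w q'` with `q ≠ q'`, then `v |q - q'| ≤ 2 d P^d τ` but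
`|q - q'| ≥ P^(-2d)`, so `X ≤ v ≤ 2 d P^(3d) τ`: contradiction. So `w` is injective and
`2 ^ d ≤ |V|`. -/
def S_ISO : Prop := ∀ (P τ X d : ℕ) (V Ps : Finset ℕ) (M : ℕ → Finset (ℕ × ℕ)),
  (∀ p ∈ Ps, p.Prime ∧ p ≤ P) → (∀ v ∈ V, X ≤ v) → 4 * (d + 1) * (τ + 1) * P ^ (4 * d + 4) < X →
  V.card < 2 ^ d →
  (∀ p ∈ Ps, ∀ e ∈ M p, e.1 ∈ V ∧ e.2 ∈ V ∧ e.2 ≤ p * e.1 + τ ∧ p * e.1 ≤ e.2 + τ) →
  (∀ p ∈ Ps, ∀ e ∈ M p, ∀ e' ∈ M p, (e.1 = e'.1 ∨ e.2 = e'.2) → e = e') →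
  ∑ p ∈ Ps, (M p).card ≤ 2 * d * V.card

open Classical in
/-- number of non-zero coefficients of `g` below `n` -/
noncomputable def sig {R : Type} [CommRing R] (n : ℕ) (g : PowerSeries R) : ℕ :=
  ((range n).filter (fun k => PowerSeries.coeff k g ≠ 0)).card

open Classical in
/-- **FROB**. Proof. Let `r = (p - 1) / 2`, so `p = 2 r + 1`. `sig n (g h) ≤ sig n g * sig n h`,
`sig n (g + h) ≤ sig n g + sig n h`, `sig n ((1 - X) h) ≤ 2 sig n h`. Over `ZMod p`,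
`μ ^ p = ∑ (coeff j μ) X^(p j)` (Frobenius is a ring homomorphism and `c ^ p = c`; in Mathlib
see `PowerSeries.map_frobenius_expand` or use `∑` of the truncation `trunc`). And
`μ ^ p = μ (μ²)^r = μ (Δ + (1 - X) h)^r = Δ^r μ + (1 - X) Wt` with
`Wt = μ h ∑ (i < r) binom(r, i+1) Δ^(r-1-i) ((1 - X) h)^i`, and `Δ^r = -1`. The partial sums of the
coefficients of `μ ^ p` up to `k` are `F (k / p)`, those of `μ` are `F k`, those of `(1 - X) Wt` are
`coeff k Wt`. So `F (k / p) = - F k + coeff k Wt`, and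
`sig n Wt ≤ K Z ∑ (i < r) (2 Z)^i ≤ K Z (2 Z)^r ≤ (4 K Z)^p`. -/
def S_FROB : Prop := ∀ (p n K Z : ℕ) (μ h : PowerSeries (ZMod p)) (Δ : ZMod p), p.Prime → 2 < p →
  Δ ^ ((p - 1) / 2) = -1 → μ ^ 2 = PowerSeries.C Δ + (1 - PowerSeries.X) * h →
  1 ≤ K → 1 ≤ Z → sig n μ ≤ K → sig n h ≤ Z →
  ((range n).filter (fun k => ¬ Good (fun j => PowerSeries.coeff j μ) k)).card ≤ (4 * K * Z) ^ p

/-- **HSUP**. Proof. `|ε j| ≤ L` makes everything converge. Define `H` by the recursion. With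
`g j = ∑ (i ≤ j) ε i ε (j - i)` for `j ≥ 1` and `g 0 = ε 0 ^ 2 - Δ` we have
`H k = ∑ (j ≤ k) b^(k-j) g j`, and `∑ (all j) g j b^(-j) = (∑ ε j b^(-j))² - Δ = 0` (Cauchy product),
so `H k = - ∑ (i ≥ 1) g (k + i) b^(-i)`. If `H k ≠ 0` and no sum `i₁ + i₂` of two elements of
`D = {ε ≠ 0}` is in `(k, k + T]`, then `g (k + i) = 0` for `1 ≤ i ≤ T` and
`|H k| ≤ ∑ (i > T) L² (k + i + 1) b^(-i) ≤ L² (k + T + 3) b^(-T) < 1` (`|g j| ≤ L² (j + 1)`;
`∑ (i ≥ 1) (c + i) 2^(-i) = c + 2`), so the integer `H k` is `0`: contradiction. So for every `k < n` with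
`H k ≠ 0` there is `s ∈ D + D` with `k < s ≤ k + T < n + T`; both summands are `< n + T`, so there are
at most `T |D ∩ [0, n + T)|²` such `k`. -/
def S_HSUP : Prop := ∀ (b L n T : ℕ) (ε : ℕ → ℤ) (Δ : ℤ), 2 ≤ b → (∀ j, |ε j| ≤ (L : ℤ)) →
  (∑' j, (ε j : ℝ) / (b : ℝ) ^ j) ^ 2 = (Δ : ℝ) → L ^ 2 * (n + T + 3) < b ^ T →
  ∃ H : ℕ → ℤ, H 0 = ε 0 ^ 2 - Δ ∧
    (∀ k, H (k + 1) = b * H k + ∑ i ∈ range (k + 2), ε i * ε (k + 1 - i)) ∧
    ((range n).filter (fun k => H k ≠ 0)).card ≤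
      T * ((range (n + T)).filter (fun j => ε j ≠ 0)).card ^ 2

open Classical in
/-- **MODP**. Proof. `b` is invertible modulo `p`. Put `δ j = ε j b^(-j)`, `μ = ∑ δ j X^j`,
`h = ∑ H k b^(-k) X^k` in `ZMod p`. The recursion says `μ² = Δ + (1 - X) h` (coefficient of
`X^(k+1)`: `b^(-k-1) ∑ ε i ε (k+1-i) = b^(-k-1) H (k+1) - b^(-k) H k`). FROB gives the bound for
the bad places. `G k` is the sum of the coefficients of `μ²` up to `k`, that is
`Δ + coeff k h`, so `G k ≠ Δ` implies `H k ≠ 0`, and `Z ≤ (4 K Z)^p`. `Δ ≠ 0` as its power is `-1`. -/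
def S_MODP : Prop := S_FROB → ∀ (b p n K Z : ℕ) (ε H : ℕ → ℤ) (Δ : ℤ), p.Prime → 2 < p → ¬ p ∣ b →
  (Δ : ZMod p) ^ ((p - 1) / 2) = -1 → 1 ≤ K → 1 ≤ Z → H 0 = ε 0 ^ 2 - Δ →
  (∀ k, H (k + 1) = b * H k + ∑ i ∈ range (k + 2), ε i * ε (k + 1 - i)) →
  ((range n).filter (fun j => ε j ≠ 0)).card ≤ K → ((range n).filter (fun k => H k ≠ 0)).card ≤ Z →
  Dat p (fun j => (ε j : ZMod p) * ((b : ZMod p)⁻¹) ^ j) (Δ : ZMod p) n K ((4 * K * Z) ^ p)

/-- the `k`-th digit after the point of `x` in base `b` (`k ≥ 1`) -/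
noncomputable def digit (x : ℝ) (b k : ℕ) : ℤ := ⌊x * (b : ℝ) ^ k⌋ % (b : ℤ)

/-- **QUAD**. Proof. Let `x_k = ⌊x b^k⌋`; for `k ≥ 1` the digit `a_k = x_k - b x_(k-1)` lies in
`[0, b)`, so it is `x_k % b = digit x b k`. Put `y_k = x_(k+1) - x_k`, so
`y_k = b y_(k-1) + (a_(k+1) - a_k)` for `k ≥ 1`. With `e_0 = y_0 = x_1 - x_0` and
`e_k = a_(k+1) - a_k` (`k ≥ 1`): `∑ (j ≤ k) e_j b^(-j) = y_k b^(-k)`, which tends to `(b - 1) x`. So
`∑' e_j b^(-j) = (b - 1) x`. Let `A x² + B x + C = 0`, `d = B² - 4 A C`, so `(2 A x + B)² = d`; `d` is not a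
square since otherwise `x` would be rational. Put `ε_j = 2 A e_j` for `j ≥ 1`,
`ε_0 = 2 A e_0 + (b - 1) B`, `Δ = (b - 1)² d` (not a square, as `b - 1 ≥ 1` and `d` is not a square);
then `∑' ε_j b^(-j) = (b - 1) (2 A x + B)`. -/
def S_QUAD : Prop := ∀ (x : ℝ) (b : ℕ), 2 ≤ b → Irrational x →
  (∃ A B C : ℤ, A ≠ 0 ∧ (A : ℝ) * x ^ 2 + B * x + C = 0) →
  ∃ (ε : ℕ → ℤ) (L : ℕ) (Δ : ℤ), ¬ IsSquare Δ ∧ (∀ j, |ε j| ≤ (L : ℤ)) ∧
    (∑' j, (ε j : ℝ) / (b : ℝ) ^ j) ^ 2 = (Δ : ℝ) ∧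
    (∀ j, 1 ≤ j → ε j ≠ 0 → digit x b j ≠ digit x b (j + 1))

open Classical in
/-- **INERT**. Proof. (i) There is an odd prime `p₀` not dividing `Δ` with `(Δ / p₀) = -1`
(elementary: write `Δ = ± 2^e q₁ ... q_r s²` squarefree part `≠ 1`; by the Chinese remainder
theorem and reciprocity there is an odd `m` coprime to `Δ` with Jacobi symbol `-1`, and a prime
factor of `m` does it; the starting tree has such lemmas, grep for jacobiSym). (ii) By
`jacobiSym.mod_right` every odd prime `p ≡ p₀` modulo `4 |Δ|` has `(Δ / p) = -1`, so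
`Δ ^ ((p-1)/2) = -1` in `ZMod p` (Euler, `ZMod.euler_criterion` / `legendreSym.eq_pow`). (iii) The prime
number theorem for arithmetic progressions `pnt_residueClass` (in `Pool/Agent/Cov/PNT.lean` of the
starting tree) with modulus `4 |Δ|` gives at least `c P / log P` such primes up to `P`; only finitely
many divide `b` or are `2`. -/
def S_INERT : Prop := ∀ (Δ : ℤ) (b : ℕ), 2 ≤ b → ¬ IsSquare Δ → ∀ η : ℝ, 0 < η →
  ∀ᶠ P : ℕ in atTop, (P : ℝ) ^ (1 - η) ≤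
    (((range (P + 1)).filter (fun p : ℕ => p.Prime ∧ 2 < p ∧ ¬ p ∣ b ∧
      (Δ : ZMod p) ^ ((p - 1) / 2) = -1)).card : ℝ)

/-- **FIN** (choice of the parameters). Put `l = log N`. `P = ⌊l^(1-η/4)⌋`, `T = ⌈(3 log 2)⁻¹ ...⌉`, more
precisely any `T` with `b^T > L² (N + 3)`, `T ≤ c l` works (`n = N - T`), `Z = T (K+1)² ≤ l^7`,
`E = (4 (K+1) Z)^P = exp(o(l))`, `z = E + 1`, `m = ⌊l^(1/2 - η/8)⌋`, `ρ = 4(K+2)(m+1) + 2P + 4 ≤ l^4`,
`Y = z ρ^(3(m²+m+1)+3) + ⌊√N / ...⌋`, for instance `Y = ⌈N^(1/4)⌉`, `t = ⌊l^(1-η/8)⌋`, `d` minimal with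
`K + 1 < 2^d` (so `d ≤ 4 log l` for large `N`), all powers of `l` times `log l` with exponent `< 1` are
`o(l)`. Finally `2 d (K+1) < l^(5/2 - η/2) ≤ P^(1-η/8) t (m+1)` for large `N`. -/
def S_FIN : Prop := ∀ (L b : ℕ) (η : ℝ), 2 ≤ b → 0 < η → η < 1 → ∀ᶠ N : ℕ in atTop, ∀ K : ℕ,
  (K : ℝ) < (Real.log N) ^ ((5 : ℝ) / 2 - η) →
  ∃ n T Z E z m ρ Y t d : ℕ, n + T ≤ N ∧ L ^ 2 * (n + T + 3) < b ^ T ∧ 1 ≤ T ∧
    Z = T * (K + 1) ^ 2 ∧
    E = (4 * (K + 1) * Z) ^ ⌊(Real.log N) ^ (1 - η / 4)⌋₊ ∧ E ≤ z ∧ 1 ≤ z ∧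
    4 * (K + 2) * (m + 1) + 2 * ⌊(Real.log N) ^ (1 - η / 4)⌋₊ + 4 ≤ ρ ∧
    z * ρ ^ (3 * (m ^ 2 + m + 1) + 3) ≤ Y ∧ ρ ^ (5 * t + 6) * Y ≤ n ∧
    K + 1 < 2 ^ d ∧
    ⌊(Real.log N) ^ (1 - η / 4)⌋₊ *
      (4 * (d + 1) * (E + 1) * ⌊(Real.log N) ^ (1 - η / 4)⌋₊ ^ (4 * d + 4) + E + 2) < Y ∧
    2 * (d : ℝ) * ((K : ℝ) + 1) <
      (⌊(Real.log N) ^ (1 - η / 4)⌋₊ : ℝ) ^ (1 - η / 8) * ((t : ℝ) * ((m : ℝ) + 1))

/-- **MAIN**: the goal. -/
def S_MAIN : Prop := ∀ (x : ℝ) (b : ℕ), 2 ≤ b → Irrational x →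
  (∃ A B C : ℤ, A ≠ 0 ∧ (A : ℝ) * x ^ 2 + B * x + C = 0) → ∀ η : ℝ, 0 < η →
  ∀ᶠ N : ℕ in atTop, (Real.log N) ^ ((5 : ℝ) / 2 - η) ≤
    (((Icc 1 N).filter (fun k => digit x b k ≠ digit x b (k + 1))).card : ℝ)

end Pool.Agent.Run7.h188.DC
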